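import Pool.Agent.Q6.RI.Orb
import Pool.Agent.Q6.RI.Rel

/-!
# An imprimitive permutation group with an odd relation index

There is a finite imprimitive permutation group `G` (of degree 36) with `r(G) = 3`.
-/

set_option autoImplicit false
set_option maxHeartbeats 400000

namespace Pool.Agent.Results.MP_670c4f_al.IndexThree

open Pool.Agent.Q6.RI

/-- The invariance group of a relation `R` on a finite set `Ω`, that is, of a family `R` of subsets
of `Ω`: the group of all permutations `g` of `Ω` such that the image under `g` of every member of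
`R` is a member of `R`. -/
def invarianceGroup {Ω : Type} [Finite Ω] (R : Set (Set Ω)) : Subgroup (Equiv.Perm Ω) where
  carrier := {g | ∀ x ∈ R, g '' x ∈ R}
  one_mem' x hx := by simpa using hx
  mul_mem' {g h} hg hh x hx := by
    have h1 : (⇑(g * h)) '' x = g '' (h '' x) := by
      rw [Set.image_image]
      rfl
    rw [h1]
    exact hg _ (hh _ hx)
  inv_mem' {g} hg x hx := by
    have hpow : ∀ n : ℕ, (⇑(g ^ n)) '' x ∈ R := by
      intro n
      induction n with
      | zero => simpa using hx
      | succ n ih =>
        have h1 : (⇑(g ^ (n + 1))) '' x = g '' ((⇑(g ^ n)) '' x) := by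
          rw [Set.image_image, pow_succ']
          rfl
        rw [h1]
        exact hg _ ih
    obtain ⟨n, hn⟩ : ∃ n : ℕ, g ^ n = g⁻¹ := by
      have h1 : g ^ (orderOf g - 1) = g⁻¹ := by
        rw [eq_inv_iff_mul_eq_one, ← pow_succ, Nat.sub_add_cancel (orderOf_pos g),
          pow_orderOf_eq_one]
      exact ⟨_, h1⟩
    rw [← hn]
    exact hpow n

/-- The relation index `r(G)` of a permutation group `G` on a finite set: the least index of `G` in
the invariance group of a relation which is invariant under `G`. -/
noncomputable def relationIndex {Ω : Type} [Finite Ω] (G : Subgroup (Equiv.Perm Ω)) : ℕ :=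
  sInf {k | ∃ R : Set (Set Ω), G ≤ invarianceGroup R ∧ k = G.relIndex (invarianceGroup R)}

/-- A permutation group is imprimitive if it is transitive and preserves a partition other than the
partition into singletons and the partition with one part. -/
def Imprimitive {Ω : Type} (G : Subgroup (Equiv.Perm Ω)) : Prop :=
  (∀ a b : Ω, ∃ g ∈ G, g a = b) ∧
    ∃ r : Setoid Ω, r ≠ ⊥ ∧ r ≠ ⊤ ∧ ∀ g ∈ G, ∀ a b : Ω, r a b → r (g a) (g b)

lemma rel_index : grpG.relIndex grpH = 3 := by
  have h1 : grpG.subgroupOf grpH = phiHom.ker := by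
    ext g
    rw [Subgroup.mem_subgroupOf, mem_grpG_iff, MonoidHom.mem_ker]
    constructor
    · rintro ⟨-, h⟩
      change Multiplicative.ofAdd (phi g) = 1
      rw [h]
      rfl
    · intro h
      exact ⟨g.2, Multiplicative.ofAdd.injective h⟩
  have h2 : Function.Surjective phiHom := by
    intro m
    have hp := el_par 1 (fun e => if e = 0 then Multiplicative.toAdd m else 0) (fun _ _ => 0)
      (fun _ _ => 0)
    refine ⟨⟨_, _, _, _, hp, fun e e' => rfl⟩, ?_⟩
    change Multiplicative.ofAdd (phi _) = m
    rw [hp.phi_eq]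
    simp [yy]
  rw [Subgroup.relIndex, h1, Subgroup.index_ker, MonoidHom.range_eq_top.mpr h2,
    Subgroup.card_top]
  rw [Nat.card_congr Multiplicative.toAdd]
  simp

lemma grpG_imprimitive : Imprimitive grpG := by
  constructor
  · rintro ⟨⟨e, k⟩, b⟩ ⟨⟨e', k'⟩, b'⟩
    have hp := el_par (Equiv.addRight (e' - e)) (fun _ => k' - k) (fun _ _ => 0)
      (fun _ _ => b' - b)
    refine ⟨_, ⟨_, _, _, hp, fun i => ?_⟩, ?_⟩
    · simp only [yy, Finset.sum_const]
      have h3 : (Finset.univ : Finset (ZMod 3)).card = 3 := rfl
      rw [h3]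
      generalize k' - k = a
      revert a
      decide
    · rw [el_apply, rot_zero]
      simp
  · refine ⟨Setoid.ker Prod.fst, ?_, ?_, ?_⟩
    · intro h
      have h1 : (Setoid.ker Prod.fst : Setoid Om) (((0, 0), (0, 0)) : Om) ((0, 0), (1, 0)) := rfl
      rw [h] at h1
      have h2 : (((0, 0), (0, 0)) : Om) = ((0, 0), (1, 0)) := h1
      revert h2
      decide
    · intro h
      have h1 : (⊤ : Setoid Om) (((0, 0), (0, 0)) : Om) ((0, 1), (0, 0)) := trivial
      rw [← h] at h1
      have h2 : ((0, 0) : I) = (0, 1) := h1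
      revert h2
      decide
    · rintro g ⟨π, c, v, hg, -⟩ ⟨⟨e, k⟩, b⟩ ⟨⟨e', k'⟩, b'⟩ h
      have h2 : ((e, k) : I) = (e', k') := h
      obtain ⟨rfl, rfl⟩ : e = e' ∧ k = k' := by simpa using h2
      change (g ((e, k), b)).1 = (g ((e, k), b')).1
      rw [hg.fst, hg.fst]

/-- There is a finite imprimitive permutation group `G` with relation index `r(G) = 3`. -/
theorem result : ∃ (Ω : Type) (_ : Finite Ω) (G : Subgroup (Equiv.Perm Ω)),
    Imprimitive G ∧ relationIndex G = 3 := by
  classical
  refine ⟨Om, inferInstance, grpG, grpG_imprimitive, ?_⟩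
  apply le_antisymm
  · apply Nat.sInf_le
    refine ⟨{y | ∃ x ∈ R0, y = ↑x}, ?_, ?_⟩
    · rintro g hg _ ⟨x, hx, rfl⟩
      exact ⟨x.image g, image_mem_of_mem (grpG_le hg) hx, by simp⟩
    · refine rel_index.symm.trans ?_
      congr 1
      ext g
      constructor
      · rintro hg _ ⟨x, hx, rfl⟩
        exact ⟨x.image g, image_mem_of_mem hg hx, by simp⟩
      · intro hg
        apply mem_grpH_of
        intro x hx
        obtain ⟨x', hx', h1⟩ := hg _ ⟨x, hx, rfl⟩
        have h2 : x.image g = x' := by
          rw [← Finset.coe_inj, ← h1]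
          simp
        rw [h2]
        exact hx'
  · apply le_csInf
    · exact ⟨_, Set.univ, fun g _ x _ => Set.mem_univ _, rfl⟩
    · rintro k ⟨R, hR, rfl⟩
      have hle : grpH ≤ invarianceGroup R := by
        intro h hh x hx
        obtain ⟨g, hg, hgx⟩ := exists_agree x.toFinite.toFinset h hh
        have h1 : (h : Om → Om) '' x = g '' x := by
          have h2 := congrArg (fun s : Finset Om => (s : Set Om)) hgx
          simp only [Finset.coe_image, Set.Finite.coe_toFinset] at h2
          exact h2.symm
        rw [h1]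
        exact hR hg x hx
      rw [← Subgroup.relIndex_mul_relIndex grpG grpH _ grpG_le hle, rel_index]
      have h2 : grpH.relIndex (invarianceGroup R) ≠ 0 := Subgroup.index_ne_zero_of_finite
      omega

end Pool.Agent.Results.MP_670c4f_al.IndexThree
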